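import Pool.Agent.helper68.B2.Defs
import Pool.Agent.helper25.B2.TDefs
import Pool.Agent.helper47.B2.PO

/-! # B2 module W1: frame forms on `ℝ⁴ ∖ 0`: Poincaré lemma, closedness, maximum principle -/

set_option autoImplicit false

namespace Pool.Agent.helper68.B2

open scoped ContDiff Topology Matrix
open Matrix Set

theorem W1_J0 (x : E4) :
    ((J 0 x) 0 = -x 1) ∧ ((J 0 x) 1 = x 0) ∧ ((J 0 x) 2 = x 3) ∧ ((J 0 x) 3 = -x 2) := by
  simp [J, Jm, Matrix.mulVec, dotProduct, Fin.sum_univ_four]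

theorem W1_J1 (x : E4) :
    ((J 1 x) 0 = -x 2) ∧ ((J 1 x) 1 = -x 3) ∧ ((J 1 x) 2 = x 0) ∧ ((J 1 x) 3 = x 1) := by
  simp [J, Jm, Matrix.mulVec, dotProduct, Fin.sum_univ_four]

theorem W1_J2 (x : E4) :
    ((J 2 x) 0 = -x 3) ∧ ((J 2 x) 1 = x 2) ∧ ((J 2 x) 2 = -x 1) ∧ ((J 2 x) 3 = x 0) := by
  simp [J, Jm, Matrix.mulVec, dotProduct, Fin.sum_univ_four]

theorem W1_inner (x y : E4) :
    inner ℝ x y = x 0 * y 0 + x 1 * y 1 + x 2 * y 2 + x 3 * y 3 := by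
  simp [PiLp.inner_apply, Fin.sum_univ_four]
  ring

theorem W1_in0 (x w : E4) :
    inner ℝ (J 0 x) w = -x 1 * w 0 + x 0 * w 1 + x 3 * w 2 - x 2 * w 3 := by
  obtain ⟨h0, h1, h2, h3⟩ := W1_J0 x
  rw [W1_inner, h0, h1, h2, h3]; ring

theorem W1_in1 (x w : E4) :
    inner ℝ (J 1 x) w = -x 2 * w 0 - x 3 * w 1 + x 0 * w 2 + x 1 * w 3 := by
  obtain ⟨h0, h1, h2, h3⟩ := W1_J1 x
  rw [W1_inner, h0, h1, h2, h3]; ring

theorem W1_in2 (x w : E4) :
    inner ℝ (J 2 x) w = -x 3 * w 0 + x 2 * w 1 - x 1 * w 2 + x 0 * w 3 := by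
  obtain ⟨h0, h1, h2, h3⟩ := W1_J2 x
  rw [W1_inner, h0, h1, h2, h3]; ring

theorem W1_norm (x : E4) : ‖x‖ ^ 2 = x 0 ^ 2 + x 1 ^ 2 + x 2 ^ 2 + x 3 ^ 2 := by
  rw [← real_inner_self_eq_norm_sq, W1_inner]; ring

/-- decomposition of a vector in the basis `x, J 0 x, J 1 x, J 2 x` -/
theorem W1_dec (x v : E4) :
    ‖x‖ ^ 2 • v = (inner ℝ x v) • x + ∑ i, (inner ℝ (J i x) v) • J i x := by
  obtain ⟨a0, a1, a2, a3⟩ := W1_J0 x
  obtain ⟨b0, b1, b2, b3⟩ := W1_J1 x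
  obtain ⟨c0, c1, c2, c3⟩ := W1_J2 x
  rw [Fin.sum_univ_three, W1_in0, W1_in1, W1_in2, W1_norm, W1_inner]
  ext j
  fin_cases j
  · simp [a0, b0, c0]; ring
  · simp [a1, b1, c1]; ring
  · simp [a2, b2, c2]; ring
  · simp [a3, b3, c3]; ring

theorem W1_Jx (i : Fin 3) (x : E4) : inner ℝ (J i x) x = (0 : ℝ) := by
  fin_cases i
  · show inner ℝ (J 0 x) x = (0 : ℝ)
    rw [W1_in0]; ring
  · show inner ℝ (J 1 x) x = (0 : ℝ)
    rw [W1_in1]; ring
  · show inner ℝ (J 2 x) x = (0 : ℝ)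
    rw [W1_in2]; ring

theorem W1_JJ (i j : Fin 3) (x : E4) :
    inner ℝ (J i x) (J j x) = if i = j then ‖x‖ ^ 2 else (0 : ℝ) := by
  obtain ⟨a0, a1, a2, a3⟩ := W1_J0 x
  obtain ⟨b0, b1, b2, b3⟩ := W1_J1 x
  obtain ⟨c0, c1, c2, c3⟩ := W1_J2 x
  rw [W1_norm]
  fin_cases i <;> fin_cases j
  · show inner ℝ (J 0 x) (J 0 x) = _
    rw [W1_in0, a0, a1, a2, a3, if_pos rfl]; ring
  · show inner ℝ (J 0 x) (J 1 x) = _
    rw [W1_in0, b0, b1, b2, b3, if_neg (by decide)]; ring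
  · show inner ℝ (J 0 x) (J 2 x) = _
    rw [W1_in0, c0, c1, c2, c3, if_neg (by decide)]; ring
  · show inner ℝ (J 1 x) (J 0 x) = _
    rw [W1_in1, a0, a1, a2, a3, if_neg (by decide)]; ring
  · show inner ℝ (J 1 x) (J 1 x) = _
    rw [W1_in1, b0, b1, b2, b3, if_pos rfl]; ring
  · show inner ℝ (J 1 x) (J 2 x) = _
    rw [W1_in1, c0, c1, c2, c3, if_neg (by decide)]; ring
  · show inner ℝ (J 2 x) (J 0 x) = _
    rw [W1_in2, a0, a1, a2, a3, if_neg (by decide)]; ring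
  · show inner ℝ (J 2 x) (J 1 x) = _
    rw [W1_in2, b0, b1, b2, b3, if_neg (by decide)]; ring
  · show inner ℝ (J 2 x) (J 2 x) = _
    rw [W1_in2, c0, c1, c2, c3, if_pos rfl]; ring

theorem W1_fld_ee (i : Fin 3) (x : E4) : fld (ee i) x = J i x := by
  simp only [fld, ee, Fin.sum_univ_three]
  fin_cases i <;> simp

theorem W1_form_apply (α : E4 → V3) (x w : E4) :
    form α x w = ∑ i, (α x i / ‖x‖ ^ 2) * inner ℝ (J i x) w := by
  simp [form]

/-- a function with zero radial derivative is constant along rays -/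
theorem W1_ray {F : Type*} [NormedAddCommGroup F] [NormedSpace ℝ F] (f : E4 → F)
    (hf : ∀ x, x ≠ 0 → DifferentiableAt ℝ f x)
    (hr : ∀ x, x ≠ 0 → fderiv ℝ f x x = 0) (x : E4) (hx : x ≠ 0) (t : ℝ) (ht : 0 < t) :
    f (t • x) = f x := by
  have hd : ∀ s ∈ Ioi (0 : ℝ), HasDerivAt (fun r : ℝ => f (r • x)) 0 s := by
    intro s hs
    have hs' : (0 : ℝ) < s := hs
    have hsx : s • x ≠ 0 := smul_ne_zero hs'.ne' hx
    have h1 : HasDerivAt (fun r : ℝ => r • x) x s := by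
      simpa using (hasDerivAt_id s).smul_const x
    have h2 := (hf _ hsx).hasFDerivAt.comp_hasDerivAt s h1
    have h3 : fderiv ℝ f (s • x) x = 0 := by
      have h4 := hr _ hsx
      rw [map_smul] at h4
      exact (smul_eq_zero.1 h4).resolve_left hs'.ne'
    rw [h3] at h2
    exact h2
  have h5 := isOpen_Ioi.is_const_of_deriv_eq_zero isPreconnected_Ioi
    (fun s hs => (hd s hs).differentiableAt.differentiableWithinAt)
    (fun s hs => (hd s hs).deriv) (show t ∈ Ioi (0 : ℝ) from ht)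
    (show (1 : ℝ) ∈ Ioi (0 : ℝ) from mem_Ioi.2 one_pos)
  simpa using h5

/-- a function with zero radial derivative has a maximum on `ℝ⁴ ∖ 0` -/
theorem W1_crit (f : E4 → ℝ) (hf : ∀ x, x ≠ 0 → DifferentiableAt ℝ f x)
    (hr : ∀ x, x ≠ 0 → fderiv ℝ f x x = 0) :
    ∃ p, p ≠ 0 ∧ fderiv ℝ f p = 0 ∧ ∀ x, x ≠ 0 → f x ≤ f p := by
  have hS : IsCompact (Metric.sphere (0 : E4) 1) := isCompact_sphere 0 1
  have hne : (Metric.sphere (0 : E4) 1).Nonempty := NormedSpace.sphere_nonempty.2 zero_le_one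
  have hn0 : ∀ x ∈ Metric.sphere (0 : E4) 1, x ≠ 0 := by
    rintro x hx rfl
    simp at hx
  obtain ⟨p, hp, hmax⟩ := hS.exists_isMaxOn hne
    (fun x hx => (hf x (hn0 x hx)).continuousAt.continuousWithinAt)
  have hle : ∀ x, x ≠ 0 → f x ≤ f p := by
    intro x hx
    have hx' : 0 < ‖x‖ := norm_pos_iff.2 hx
    have h1 := W1_ray f hf hr x hx ‖x‖⁻¹ (inv_pos.2 hx')
    rw [← h1]
    apply hmax
    rw [mem_sphere_zero_iff_norm, norm_smul, norm_inv, norm_norm, inv_mul_cancel₀ hx'.ne']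
  refine ⟨p, hn0 p hp, ?_, hle⟩
  have hloc : IsLocalMax f p := by
    filter_upwards [isOpen_ne.mem_nhds (hn0 p hp)] with x hx
    exact hle x hx
  exact hloc.fderiv_eq_zero

/-- the inner product as a linear map into linear forms -/
noncomputable def W1_I : E4 →L[ℝ] E4 →L[ℝ] ℝ := innerSL ℝ

theorem W1_I_apply (x y : E4) : W1_I x y = inner ℝ x y := rfl

/-- the form is closed (symmetric derivative) -/
theorem W1_symm (α : E4 → V3) (x : E4) (hx : x ≠ 0) (hα : ContDiffAt ℝ 1 α x)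
    (hr : fderiv ℝ α x x = 0)
    (hc : ∀ i j, Dv (fun y => α y j) (ee i) x - Dv (fun y => α y i) (ee j) x
      = 2 * ∑ k, eps i j k * α x k) :
    DifferentiableAt ℝ (form α) x ∧
      ∀ v w : E4, fderiv ℝ (form α) x v w = fderiv ℝ (form α) x w v := by
  have hN : ‖x‖ ^ 2 ≠ 0 := pow_ne_zero 2 (norm_ne_zero_iff.2 hx)
  have hα' : DifferentiableAt ℝ α x := hα.differentiableAt one_ne_zero
  have hαi : ∀ i, HasFDerivAt (fun y => α y i) ((ContinuousLinearMap.proj i).comp (fderiv ℝ α x)) x := by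
    intro i
    exact (hasFDerivAt_pi'.1 hα'.hasFDerivAt) i
  have hn : HasFDerivAt (fun y : E4 => ‖y‖ ^ 2) (2 • (W1_I x)) x :=
    (hasStrictFDerivAt_norm_sq x).hasFDerivAt
  have hni : HasFDerivAt (fun y : E4 => (‖y‖ ^ 2)⁻¹)
      ((-((‖x‖ ^ 2) ^ 2)⁻¹) • (2 • (W1_I x))) x :=
    (hasDerivAt_inv hN).comp_hasFDerivAt x hn
  have hJ : ∀ i, HasFDerivAt (fun y : E4 => W1_I (J i y)) (W1_I.comp (J i)) x := by
    intro i
    exact (W1_I.comp (J i)).hasFDerivAt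
  have hterm : ∀ i, HasFDerivAt (fun y : E4 => (α y i * (‖y‖ ^ 2)⁻¹) • (W1_I (J i y)))
      ((α x i * (‖x‖ ^ 2)⁻¹) • (W1_I.comp (J i)) +
        (α x i • ((-((‖x‖ ^ 2) ^ 2)⁻¹) • (2 • (W1_I x))) +
          (‖x‖ ^ 2)⁻¹ • ((ContinuousLinearMap.proj i).comp (fderiv ℝ α x))).smulRight
            (W1_I (J i x))) x := by
    intro i
    exact ((hαi i).mul hni).smul (hJ i)
  have hform : HasFDerivAt (form α) (∑ i, ((α x i * (‖x‖ ^ 2)⁻¹) • (W1_I.comp (J i)) +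
        (α x i • ((-((‖x‖ ^ 2) ^ 2)⁻¹) • (2 • (W1_I x))) +
          (‖x‖ ^ 2)⁻¹ • ((ContinuousLinearMap.proj i).comp (fderiv ℝ α x))).smulRight
            (W1_I (J i x)))) x := by
    have h1 := HasFDerivAt.fun_sum (u := Finset.univ) (fun i _ => hterm i)
    have h2 : (form α) = fun y => ∑ i, (α y i * (‖y‖ ^ 2)⁻¹) • (W1_I (J i y)) := by
      funext y
      simp only [form, div_eq_mul_inv]
      rfl
    rw [h2]
    exact h1
  refine ⟨hform.differentiableAt, ?_⟩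
  rw [hform.fderiv]
  -- the derivative of `α` in the frame
  have hDv : ∀ i j, Dv (fun y => α y i) (ee j) x = fderiv ℝ α x (J j x) i := by
    intro i j
    rw [Dv, W1_fld_ee, (hαi i).fderiv]
    rfl
  have hD : ∀ i (v : E4), fderiv ℝ α x v i * ‖x‖ ^ 2
      = ∑ j, inner ℝ (J j x) v * fderiv ℝ α x (J j x) i := by
    intro i v
    have h1 := congrArg (fun z => fderiv ℝ α x z i) (W1_dec x v)
    simp only [map_smul, map_add, map_sum, hr, smul_zero, zero_add, Pi.smul_apply,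
      Finset.sum_apply, smul_eq_mul] at h1
    rw [mul_comm]
    exact h1
  intro v w
  simp only [_root_.sum_apply, _root_.add_apply,
    _root_.smul_apply, ContinuousLinearMap.comp_apply, W1_I_apply,
    ContinuousLinearMap.smulRight_apply, smul_eq_mul, ContinuousLinearMap.proj_apply,
    nsmul_eq_mul, Nat.cast_ofNat]
  have h01 := hc 0 1
  have h02 := hc 0 2
  have h12 := hc 1 2
  rw [hDv, hDv] at h01 h02 h12
  simp [eps] at h01 h02 h12
  have e10 : fderiv ℝ α x (J 1 x) 0 = fderiv ℝ α x (J 0 x) 1 - 2 * α x 2 := by linarith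
  have e20 : fderiv ℝ α x (J 2 x) 0 = fderiv ℝ α x (J 0 x) 2 + 2 * α x 1 := by linarith
  have e21 : fderiv ℝ α x (J 2 x) 1 = fderiv ℝ α x (J 1 x) 2 - 2 * α x 0 := by linarith
  have hDv0 := hD 0 v
  have hDv1 := hD 1 v
  have hDv2 := hD 2 v
  have hDw0 := hD 0 w
  have hDw1 := hD 1 w
  have hDw2 := hD 2 w
  simp only [Fin.sum_univ_three, e10, e20, e21, W1_in0, W1_in1, W1_in2, W1_inner x v,
    W1_inner x w] at *
  generalize fderiv ℝ α x v 0 = A0 at *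
  generalize fderiv ℝ α x v 1 = A1 at *
  generalize fderiv ℝ α x v 2 = A2 at *
  generalize fderiv ℝ α x w 0 = B0 at *
  generalize fderiv ℝ α x w 1 = B1 at *
  generalize fderiv ℝ α x w 2 = B2 at *
  generalize fderiv ℝ α x (J 0 x) 0 = e00 at *
  generalize fderiv ℝ α x (J 0 x) 1 = e01 at *
  generalize fderiv ℝ α x (J 0 x) 2 = e02 at *
  generalize fderiv ℝ α x (J 1 x) 1 = e11 at *
  generalize fderiv ℝ α x (J 1 x) 2 = e12 at *
  generalize fderiv ℝ α x (J 2 x) 2 = e22 at *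
  generalize α x 0 = a0 at *
  generalize α x 1 = a1 at *
  generalize α x 2 = a2 at *
  have hN2 := W1_norm x
  generalize ‖x‖ ^ 2 = N at *
  generalize x 0 = x0 at *
  generalize x 1 = x1 at *
  generalize x 2 = x2 at *
  generalize x 3 = x3 at *
  generalize v 0 = v0 at *
  generalize v 1 = v1 at *
  generalize v 2 = v2 at *
  generalize v 3 = v3 at *
  generalize w 0 = w0 at *
  generalize w 1 = w1 at *
  generalize w 2 = w2 at *
  generalize w 3 = w3 at *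
  have hA0 := (eq_div_iff hN).2 hDv0
  have hA1 := (eq_div_iff hN).2 hDv1
  have hA2 := (eq_div_iff hN).2 hDv2
  have hB0 := (eq_div_iff hN).2 hDw0
  have hB1 := (eq_div_iff hN).2 hDw1
  have hB2 := (eq_div_iff hN).2 hDw2
  rw [hA0, hA1, hA2, hB0, hB1, hB2]
  clear hA0 hA1 hA2 hB0 hB1 hB2 hDv0 hDv1 hDv2 hDw0 hDw1 hDw2
  field_simp
  rw [hN2]
  ring

/-- a closed frame form has local primitives -/
theorem W1_poincare (α : E4 → V3) (U : Set E4) (hU : IsOpen U) (h0 : (0 : E4) ∉ U)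
    (hα : ContDiffOn ℝ 1 α U) (hr : ∀ x ∈ U, fderiv ℝ α x x = 0)
    (hc : ∀ x ∈ U, ∀ i j, Dv (fun y => α y j) (ee i) x - Dv (fun y => α y i) (ee j) x
      = 2 * ∑ k, eps i j k * α x k) :
    ∀ x ∈ U, ∃ W ∈ 𝓝 x, W ⊆ U ∧ ∃ f : E4 → ℝ, ∀ y ∈ W, HasFDerivAt f (form α y) y := by
  intro x hx
  obtain ⟨r, hr0, hrU⟩ := Metric.isOpen_iff.1 hU x hx
  have hs : ∀ y ∈ Metric.ball x r, DifferentiableAt ℝ (form α) y ∧
      ∀ v w : E4, fderiv ℝ (form α) y v w = fderiv ℝ (form α) y w v := by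
    intro y hy
    have hyU := hrU hy
    have hy0 : y ≠ 0 := by
      rintro rfl
      exact h0 hyU
    exact W1_symm α y hy0 (hα.contDiffAt (hU.mem_nhds hyU)) (hr y hyU) (hc y hyU)
  refine ⟨Metric.ball x r, Metric.ball_mem_nhds x hr0, hrU, _,
    Pool.Agent.helper25.B2.PO_star Metric.isOpen_ball (c := x) ?_ (fun y hy => (hs y hy).1)
      (fun y hy => (hs y hy).2)⟩
  intro y hy
  exact (convex_ball x r).segment_subset (Metric.mem_ball_self hr0) hy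

/-- there is no nowhere vanishing closed form -/
theorem W1_contra (α : E4 → V3)
    (hα : ∀ x, x ≠ 0 → ContDiffAt ℝ 1 α x) (hr : ∀ x, x ≠ 0 → fderiv ℝ α x x = 0)
    (hc : ∀ x, x ≠ 0 → ∀ i j, Dv (fun y => α y j) (ee i) x - Dv (fun y => α y i) (ee j) x
      = 2 * ∑ k, eps i j k * α x k)
    (hne : ∀ x, x ≠ 0 → α x ≠ 0) : False := by
  have hs := fun (x : E4) (hx : x ≠ 0) => W1_symm α x hx (hα x hx) (hr x hx) (hc x hx)
  obtain ⟨f, hf⟩ := Pool.Agent.helper25.B2.exact_punctured (E := E4) (θ := form α)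
    (by simp) (fun x hx => (hs x hx).1) (fun x hx => (hs x hx).2)
  obtain ⟨p, hp, hfp, -⟩ := W1_crit f (fun x hx => (hf x hx).differentiableAt) (by
    intro x hx
    rw [(hf x hx).fderiv, W1_form_apply]
    exact Finset.sum_eq_zero fun i _ => by rw [W1_Jx, mul_zero])
  apply hne p hp
  rw [(hf p hp).fderiv] at hfp
  have hN : ‖p‖ ^ 2 ≠ 0 := pow_ne_zero 2 (norm_ne_zero_iff.2 hp)
  funext j
  have h1 : form α p (J j p) = 0 := by rw [hfp]; rfl
  rw [W1_form_apply] at h1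
  simp only [W1_JJ, mul_ite, mul_zero, Finset.sum_ite_eq', Finset.mem_univ, if_true] at h1
  rw [div_mul_cancel₀ _ hN] at h1
  exact h1

end Pool.Agent.helper68.B2
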