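import Mathlib

/-! # B2 module W8: nonnegative `C²` functions; implicit functions -/

set_option autoImplicit false

namespace Pool.Agent.helper68.B2

open scoped ContDiff Topology
open Set Filter

theorem W8_sq {E : Type*} [NormedAddCommGroup E] [NormedSpace ℝ E]
    (f : E → ℝ) (U : Set E) (hU : IsOpen U) (hf : ContDiffOn ℝ 2 f U)
    (h0 : ∀ x ∈ U, 0 ≤ f x) (p : E) (hp : p ∈ U) :
    ∃ C : ℝ, 0 < C ∧ ∃ W ∈ 𝓝 p, W ⊆ U ∧ ∀ x ∈ W, ‖fderiv ℝ f x‖ ^ 2 ≤ C * f x := by
  have hfp : ContDiffAt ℝ 2 f p := hf.contDiffAt (hU.mem_nhds hp)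
  have hdf : ContDiffAt ℝ 1 (fderiv ℝ f) p := hfp.fderiv_right (by norm_num)
  obtain ⟨K, W, hW, hK⟩ := hdf.exists_lipschitzOnWith
  obtain ⟨r, hr, hrW⟩ := Metric.mem_nhds_iff.1 (Filter.inter_mem hW (hU.mem_nhds hp))
  set B : ℝ := ‖fderiv ℝ f p‖ + K * r with hB
  have hB0 : 0 ≤ B := by positivity
  have hpW : p ∈ W := (hrW (Metric.mem_ball_self hr)).1
  -- bound of the derivative
  have hbd : ∀ x ∈ Metric.ball p r, ‖fderiv ℝ f x‖ ≤ B := by
    intro x hx
    have h1 := hK.dist_le_mul x (hrW hx).1 p hpW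
    rw [dist_eq_norm, dist_eq_norm] at h1
    have h2 : ‖x - p‖ < r := by rwa [Metric.mem_ball, dist_eq_norm] at hx
    have h3 : ‖fderiv ℝ f x‖ ≤ ‖fderiv ℝ f x - fderiv ℝ f p‖ + ‖fderiv ℝ f p‖ := by
      have := norm_add_le (fderiv ℝ f x - fderiv ℝ f p) (fderiv ℝ f p)
      simpa using this
    have h4 : (K : ℝ) * ‖x - p‖ ≤ K * r := mul_le_mul_of_nonneg_left h2.le K.2
    rw [hB]
    linarith
  -- Taylor
  have htay : ∀ x ∈ Metric.ball p (r / 2), ∀ h : E, ‖h‖ ≤ r / 2 - 0 → ‖h‖ < r / 2 →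
      f (x + h) ≤ f x + fderiv ℝ f x h + K * ‖h‖ ^ 2 := by
    intro x hx h _ hh
    have hxr : ‖x - p‖ < r / 2 := by rwa [Metric.mem_ball, dist_eq_norm] at hx
    have hseg : ∀ y ∈ segment ℝ x (x + h), y ∈ Metric.ball p r ∧ ‖y - x‖ ≤ ‖h‖ := by
      intro y hy
      rw [segment_eq_image'] at hy
      obtain ⟨t, ht, rfl⟩ := hy
      have h1 : ‖t • h‖ ≤ ‖h‖ := by
        rw [norm_smul, Real.norm_eq_abs, abs_of_nonneg ht.1]
        exact mul_le_of_le_one_left (norm_nonneg _) ht.2
      constructor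
      · rw [Metric.mem_ball, dist_eq_norm]
        have h2 : x + t • (x + h - x) - p = (x - p) + t • h := by
          rw [add_sub_cancel_left, add_sub_right_comm]
        rw [h2]
        have := norm_add_le (x - p) (t • h)
        linarith
      · have h2 : x + t • (x + h - x) - x = t • h := by
          rw [add_sub_cancel_left, add_sub_cancel_left]
        rw [h2]
        exact h1
    have hmv := (convex_segment x (x + h)).norm_image_sub_le_of_norm_hasFDerivWithin_le'
      (f := f) (f' := fderiv ℝ f) (φ := fderiv ℝ f x) (C := K * ‖h‖)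
      (fun y hy => by
        have hyU : y ∈ U := (hrW (hseg y hy).1).2
        exact ((hf.contDiffAt (hU.mem_nhds hyU)).differentiableAt
          two_ne_zero).hasFDerivAt.hasFDerivWithinAt)
      (fun y hy => by
        have h1 := hK.dist_le_mul y (hrW (hseg y hy).1).1 x
          (hrW (Metric.ball_subset_ball (by linarith) hx)).1
        rw [dist_eq_norm, dist_eq_norm] at h1
        exact h1.trans (mul_le_mul_of_nonneg_left (hseg y hy).2 K.2))
      (left_mem_segment ℝ x (x + h)) (right_mem_segment ℝ x (x + h))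
    rw [add_sub_cancel_left, Real.norm_eq_abs] at hmv
    have := (abs_le.1 hmv).2
    nlinarith [this]
  set K' : ℝ := K + B / (r / 4) + 1 with hK'
  have hKpos : 0 < K' := by positivity
  have hKK : (K : ℝ) ≤ K' := by
    have : 0 ≤ B / (r / 4) := by positivity
    linarith
  have hBK : B ≤ K' * (r / 4) := by
    have h1 : B / (r / 4) ≤ K' := by
      have : (0 : ℝ) ≤ K := K.2
      linarith
    rwa [div_le_iff₀ (by positivity)] at h1
  refine ⟨4 * K', by positivity, Metric.ball p (r / 4), Metric.ball_mem_nhds p (by positivity),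
    fun x hx => (hrW (Metric.ball_subset_ball (by linarith) hx)).2, ?_⟩
  intro x hx
  have hxr : ‖x - p‖ < r / 4 := by rwa [Metric.mem_ball, dist_eq_norm] at hx
  have hx2 : x ∈ Metric.ball p (r / 2) := Metric.ball_subset_ball (by linarith) hx
  have hxr' : x ∈ Metric.ball p r := Metric.ball_subset_ball (by linarith) hx
  have hfx : 0 ≤ f x := h0 x (hrW hxr').2
  -- for unit-size vectors
  have hunit : ∀ u : E, ‖u‖ ≤ 1 → (fderiv ℝ f x u) ^ 2 ≤ 4 * K' * f x := by
    intro u hu
    set D : ℝ := |fderiv ℝ f x u| with hD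
    have hD0 : 0 ≤ D := abs_nonneg _
    have hDB : D ≤ B := by
      have h1 := (fderiv ℝ f x).le_opNorm u
      rw [Real.norm_eq_abs] at h1
      have h2 := hbd x hxr'
      calc D ≤ ‖fderiv ℝ f x‖ * ‖u‖ := h1
        _ ≤ ‖fderiv ℝ f x‖ * 1 := mul_le_mul_of_nonneg_left hu (norm_nonneg _)
        _ ≤ B := by rw [mul_one]; exact h2
    have hsq : (fderiv ℝ f x u) ^ 2 = D ^ 2 := by rw [hD, sq_abs]
    rw [hsq]
    rcases hD0.eq_or_lt with h | h
    · rw [← h]
      have : 0 ≤ 4 * K' * f x := by positivity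
      simpa using this
    set t : ℝ := D / (2 * K') with ht
    have ht0 : 0 < t := by positivity
    have htr : t ≤ r / 8 := by
      rw [ht, div_le_iff₀ (by positivity)]
      nlinarith
    -- sign
    obtain ⟨s, hs, hsD⟩ : ∃ s : ℝ, |s| = 1 ∧ s * fderiv ℝ f x u = -D := by
      rcases le_total 0 (fderiv ℝ f x u) with h1 | h1
      · exact ⟨-1, by simp, by rw [hD, abs_of_nonneg h1]; ring⟩
      · exact ⟨1, by simp, by rw [hD, abs_of_nonpos h1]; ring⟩
    have hnorm : ‖(t * s) • u‖ ≤ t := by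
      rw [norm_smul, Real.norm_eq_abs, abs_mul, hs, mul_one, abs_of_pos ht0]
      exact mul_le_of_le_one_right ht0.le hu
    have h1 := htay x hx2 ((t * s) • u) (by linarith) (by linarith)
    have hmem : x + (t * s) • u ∈ U := by
      have : x + (t * s) • u ∈ Metric.ball p r := by
        rw [Metric.mem_ball, dist_eq_norm]
        have h2 : x + (t * s) • u - p = (x - p) + (t * s) • u := add_sub_right_comm _ _ _
        rw [h2]
        have := norm_add_le (x - p) ((t * s) • u)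
        linarith
      exact (hrW this).2
    have h2 := h0 _ hmem
    rw [map_smul, smul_eq_mul, mul_assoc, hsD] at h1
    have h3 : (K : ℝ) * ‖(t * s) • u‖ ^ 2 ≤ K' * t ^ 2 := by
      have h4 : ‖(t * s) • u‖ ^ 2 ≤ t ^ 2 := pow_le_pow_left₀ (norm_nonneg _) hnorm 2
      calc (K : ℝ) * ‖(t * s) • u‖ ^ 2 ≤ K' * ‖(t * s) • u‖ ^ 2 :=
            mul_le_mul_of_nonneg_right hKK (by positivity)
        _ ≤ K' * t ^ 2 := mul_le_mul_of_nonneg_left h4 hKpos.le
    have h5 : 0 ≤ f x + t * -D + K' * t ^ 2 := by linarith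
    have h6 : t * (2 * K') = D := by rw [ht]; field_simp
    nlinarith [h5, h6]
  have hle : ‖fderiv ℝ f x‖ ≤ Real.sqrt (4 * K' * f x) := by
    refine ContinuousLinearMap.opNorm_le_of_unit_norm (Real.sqrt_nonneg _) ?_
    intro u hu
    rw [Real.norm_eq_abs]
    exact Real.abs_le_sqrt (hunit u hu.le)
  calc ‖fderiv ℝ f x‖ ^ 2 ≤ Real.sqrt (4 * K' * f x) ^ 2 :=
        pow_le_pow_left₀ (norm_nonneg _) hle 2
    _ = 4 * K' * f x := Real.sq_sqrt (by positivity)

theorem W8_inv {E H : Type*} [NormedAddCommGroup E] [NormedSpace ℝ E]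
    [NormedAddCommGroup H] [NormedSpace ℝ H] [FiniteDimensional ℝ H]
    (A : E × H →L[ℝ] H) (hinv : Function.Injective fun h : H => A (0, h)) :
    (A ∘L .inr ℝ E H).IsInvertible := by
  have h1 : Function.Injective (A ∘L .inr ℝ E H) := hinv
  let e := LinearEquiv.ofInjectiveEndo (A ∘L .inr ℝ E H : H →L[ℝ] H).toLinearMap h1
  refine ⟨e.toContinuousLinearEquiv, ?_⟩
  ext h
  rfl

/-- implicit function theorem: a continuous solution of `F (x, y x) = 0` with invertible partial
derivative is smooth -/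
theorem W8_ift {E H : Type*} [NormedAddCommGroup E] [NormedSpace ℝ E] [FiniteDimensional ℝ E]
    [NormedAddCommGroup H] [NormedSpace ℝ H] [FiniteDimensional ℝ H]
    (F : E × H → H) (U : Set (E × H)) (hU : IsOpen U) (hF : ContDiffOn ℝ ∞ F U)
    (V : Set E) (hV : IsOpen V) (y : E → H) (hy : ContinuousOn y V)
    (hmem : ∀ x ∈ V, (x, y x) ∈ U ∧ F (x, y x) = 0)
    (hinv : ∀ x ∈ V, Function.Injective fun h : H => fderiv ℝ F (x, y x) (0, h)) :
    ContDiffOn ℝ ∞ y V := by
  have : CompleteSpace E := FiniteDimensional.complete ℝ E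
  have : CompleteSpace H := FiniteDimensional.complete ℝ H
  intro x hx
  have hFx : ContDiffAt ℝ ∞ F (x, y x) := hF.contDiffAt (hU.mem_nhds (hmem x hx).1)
  have hi := W8_inv (fderiv ℝ F (x, y x)) (hinv x hx)
  have hn : (∞ : ℕ∞ω) ≠ 0 := by simp
  have h1 := hFx.contDiffAt_implicitFunction hn hi
  have h2 := hFx.eventually_apply_eq_iff_implicitFunction hn hi
  have hc : ContinuousAt (fun z => (z, y z)) x :=
    continuousAt_id.prodMk (hy.continuousAt (hV.mem_nhds hx))
  have h3 := hc.eventually h2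
  refine ContDiffAt.contDiffWithinAt (h1.congr_of_eventuallyEq ?_)
  filter_upwards [h3, hV.mem_nhds hx] with z hz hzV
  exact (hz.1 (by rw [(hmem z hzV).2, (hmem x hx).2])).symm

/-- implicit function theorem: existence -/
theorem W8_ift_exists {E H : Type*} [NormedAddCommGroup E] [NormedSpace ℝ E]
    [FiniteDimensional ℝ E] [NormedAddCommGroup H] [NormedSpace ℝ H] [FiniteDimensional ℝ H]
    (F : E × H → H) (U : Set (E × H)) (hU : IsOpen U) (hF : ContDiffOn ℝ ∞ F U)
    (x₀ : E) (y₀ : H) (hmem : (x₀, y₀) ∈ U) (h0 : F (x₀, y₀) = 0)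
    (hinv : Function.Injective fun h : H => fderiv ℝ F (x₀, y₀) (0, h)) :
    ∃ V, IsOpen V ∧ x₀ ∈ V ∧ ∃ y : E → H, ContDiffOn ℝ ∞ y V ∧ y x₀ = y₀ ∧
      ∀ x ∈ V, (x, y x) ∈ U ∧ F (x, y x) = 0 := by
  have : CompleteSpace E := FiniteDimensional.complete ℝ E
  have : CompleteSpace H := FiniteDimensional.complete ℝ H
  have hFx : ContDiffAt ℝ ∞ F (x₀, y₀) := hF.contDiffAt (hU.mem_nhds hmem)
  have hi := W8_inv (fderiv ℝ F (x₀, y₀)) hinv
  have hn : (∞ : ℕ∞ω) ≠ 0 := by simp
  have h1 := hFx.contDiffAt_implicitFunction hn hi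
  have hself := hFx.implicitFunction_apply_self hn hi
  have hev := hFx.eventually_apply_implicitFunction hn hi
  set y := hFx.implicitFunction hn hi with hy
  have hself' : y x₀ = y₀ := hself
  -- continuity near `x₀`
  have h1' : ContDiffAt ℝ 1 y x₀ := h1.of_le (by exact_mod_cast le_top)
  have hcont : ∀ᶠ x in 𝓝 x₀, ContinuousAt y x := by
    filter_upwards [h1'.eventually (by simp)] with x hx
    exact hx.continuousAt
  have hc0 : ContinuousAt (fun z => (z, y z)) x₀ := continuousAt_id.prodMk h1'.continuousAt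
  have hUe : ∀ᶠ x in 𝓝 x₀, (x, y x) ∈ U := by
    have h8 : U ∈ 𝓝 (x₀, y x₀) := by
      rw [hself']
      exact hU.mem_nhds hmem
    exact hc0.eventually h8
  have hinj : ∀ᶠ x in 𝓝 x₀, Function.Injective fun h : H => fderiv ℝ F (x, y x) (0, h) := by
    have hdc : ContinuousAt (fderiv ℝ F) (x₀, y x₀) := by
      rw [hself']
      exact hFx.continuousAt_fderiv hn
    have hdc2 : ContinuousAt (fun x => (fderiv ℝ F (x, y x)) ∘L (.inr ℝ E H)) x₀ := by
      have h5 : ContinuousAt (fun x => fderiv ℝ F (x, y x)) x₀ :=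
        ContinuousAt.comp (f := fun x => (x, y x)) hdc hc0
      exact h5.clm_comp continuousAt_const
    obtain ⟨e, he⟩ := hi
    have h6 : range ((↑) : (H ≃L[ℝ] H) → (H →L[ℝ] H)) ∈ 𝓝
        ((fderiv ℝ F (x₀, y x₀)) ∘L (.inr ℝ E H)) := by
      rw [hself', ← he]
      exact ContinuousLinearEquiv.nhds e
    filter_upwards [hdc2.eventually h6] with x hx
    obtain ⟨e', he'⟩ := hx
    intro a b hab
    apply e'.injective
    have h7 : ∀ c, e' c = fderiv ℝ F (x, y x) (0, c) := by
      intro c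
      have := congrArg (fun A : H →L[ℝ] H => A c) he'
      simpa using this
    rw [h7, h7]
    exact hab
  have hall : ∀ᶠ x in 𝓝 x₀, ContinuousAt y x ∧ ((x, y x) ∈ U ∧ F (x, y x) = 0) ∧
      Function.Injective fun h : H => fderiv ℝ F (x, y x) (0, h) := by
    filter_upwards [hcont, hUe, hev, hinj] with x a1 a2 a3 a4
    refine ⟨a1, ⟨a2, ?_⟩, a4⟩
    rw [a3, h0]
  obtain ⟨V, hVs, hVo, hxV⟩ := mem_nhds_iff.1 hall
  refine ⟨V, hVo, hxV, y, ?_, hself', fun x hx => (hVs hx).2.1⟩
  exact W8_ift F U hU hF V hVo y (fun x hx => (hVs hx).1.continuousWithinAt)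
    (fun x hx => (hVs hx).2.1) (fun x hx => (hVs hx).2.2)

end Pool.Agent.helper68.B2
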